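import Pool.Agent.Helper98.QR.StmtsT
import Pool.Agent.Helper71.QR.C01

/-!
# Row T01: counting the codes
-/

namespace QR22

open QR

/-- forests of `P` trees with `N` edges -/
abbrev For (N P : ℕ) : Type := {g : Fin P → LT // ∑ i, (g i).edges = N}

/-- the number of labelled forests -/
noncomputable def ff (N P : ℕ) : ℝ :=
  if P = 0 then (if N = 0 then 1 else 0)
  else 3 ^ N * P * (2 * N + P - 1).factorial / (N.factorial * (N + P).factorial)

theorem edges_nil_iff (t : LT) (h : t.edges = 0) : t = LT.nil := by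
  cases t with
  | nil => rfl
  | cons δ c s =>
    exfalso
    have : c.edges + s.edges + 1 = 0 := h
    omega

theorem for_zero (P : ℕ) : Finite (For 0 P) ∧ (Nat.card (For 0 P) : ℝ) = ff 0 P := by
  have h1 : ∀ g : For 0 P, g.1 = fun _ => LT.nil := by
    intro g
    funext i
    apply edges_nil_iff
    have h2 := g.2
    exact (Finset.sum_eq_zero_iff.1 h2) i (Finset.mem_univ _)
  haveI : Unique (For 0 P) :=
    { default := ⟨fun _ => LT.nil, by simp [LT.edges]⟩
      uniq := fun g => Subtype.ext (h1 g) }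
  refine ⟨inferInstance, ?_⟩
  rw [Nat.card_unique]
  unfold ff
  by_cases hP : P = 0
  · simp [hP]
  · rw [if_neg hP]
    obtain ⟨p, rfl⟩ := Nat.exists_eq_succ_of_ne_zero hP
    have h3 : 2 * 0 + (p + 1) - 1 = p := by omega
    rw [Nat.succ_eq_add_one, h3, zero_add, Nat.factorial_succ]
    have h4 : (p.factorial : ℝ) ≠ 0 := by exact_mod_cast p.factorial_ne_zero
    have h5 : ((p : ℝ) + 1) ≠ 0 := by positivity
    push_cast
    rw [Nat.factorial_zero]
    field_simp
    simp

theorem for_succ_zero (N : ℕ) : Finite (For (N + 1) 0) ∧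
    (Nat.card (For (N + 1) 0) : ℝ) = ff (N + 1) 0 := by
  haveI : IsEmpty (For (N + 1) 0) := by
    constructor
    rintro ⟨g, hg⟩
    simp at hg
  refine ⟨inferInstance, ?_⟩
  rw [Nat.card_of_isEmpty]
  simp [ff]

/-- splitting off the first child of the first tree -/
noncomputable def splitMap (N P : ℕ) :
    For (N + 1) P ⊕ Fin 3 × For N (P + 2) → For (N + 1) (P + 1)
  | Sum.inl g => ⟨Fin.cons LT.nil g.1, by
      rw [Fin.sum_univ_succ]
      simp only [Fin.cons_zero, Fin.cons_succ]
      rw [g.2]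
      simp [LT.edges]⟩
  | Sum.inr x => ⟨Fin.cons (LT.cons x.1 (x.2.1 0) (x.2.1 1)) (fun i => x.2.1 i.succ.succ), by
      rw [Fin.sum_univ_succ]
      simp only [Fin.cons_zero, Fin.cons_succ]
      have h := x.2.2
      rw [Fin.sum_univ_succ, Fin.sum_univ_succ] at h
      have h1 : ((0 : Fin (P + 1)).succ) = (1 : Fin (P + 2)) := rfl
      rw [h1] at h
      show (x.2.1 0).edges + (x.2.1 1).edges + 1 + _ = _
      omega⟩

theorem splitMap_bij (N P : ℕ) : Function.Bijective (splitMap N P) := by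
  constructor
  · rintro (⟨g, hg⟩ | ⟨δ, g, hg⟩) (⟨g', hg'⟩ | ⟨δ', g', hg'⟩) h
    · have h1 := congrArg Subtype.val h
      have h2 : (Fin.cons LT.nil g : Fin (P + 1) → LT) = Fin.cons LT.nil g' := h1
      have h3 := (Fin.cons_injective2 h2).2
      subst h3
      rfl
    · exfalso
      have h1 := congrArg Subtype.val h
      have h2 : (Fin.cons LT.nil g : Fin (P + 1) → LT) =
        Fin.cons (LT.cons δ' (g' 0) (g' 1)) (fun i => g' i.succ.succ) := h1
      have h3 := (Fin.cons_injective2 h2).1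
      cases h3
    · exfalso
      have h1 := congrArg Subtype.val h
      have h2 : (Fin.cons (LT.cons δ (g 0) (g 1)) (fun i => g i.succ.succ) : Fin (P + 1) → LT) =
        Fin.cons LT.nil g' := h1
      have h3 := (Fin.cons_injective2 h2).1
      cases h3
    · have h1 := congrArg Subtype.val h
      have h2 : (Fin.cons (LT.cons δ (g 0) (g 1)) (fun i => g i.succ.succ) : Fin (P + 1) → LT) =
        Fin.cons (LT.cons δ' (g' 0) (g' 1)) (fun i => g' i.succ.succ) := h1
      have h3 := (Fin.cons_injective2 h2).1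
      have h4 := (Fin.cons_injective2 h2).2
      injection h3 with h5 h6 h7
      subst h5
      have h8 : g = g' := by
        funext i
        refine Fin.cases h6 (fun j => ?_) i
        refine Fin.cases h7 (fun l => ?_) j
        exact congrFun h4 l
      subst h8
      rfl
  · rintro ⟨g, hg⟩
    rcases h0 : g 0 with _ | ⟨δ, c, s⟩
    · refine ⟨Sum.inl ⟨fun i => g i.succ, ?_⟩, ?_⟩
      · rw [Fin.sum_univ_succ, h0] at hg
        have : LT.edges LT.nil = 0 := rfl
        show ∑ i : Fin P, (g i.succ).edges = N + 1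
        omega
      · apply Subtype.ext
        show (Fin.cons LT.nil (fun i : Fin P => g i.succ) : Fin (P + 1) → LT) = g
        rw [← h0]
        exact Fin.cons_self_tail g
    · refine ⟨Sum.inr ⟨δ, ⟨Fin.cons c (Fin.cons s (fun i => g i.succ)), ?_⟩⟩, ?_⟩
      · rw [Fin.sum_univ_succ, h0] at hg
        rw [Fin.sum_univ_succ, Fin.sum_univ_succ]
        simp only [Fin.cons_zero, Fin.cons_succ]
        have : LT.edges (LT.cons δ c s) = c.edges + s.edges + 1 := rfl
        omega
      · apply Subtype.ext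
        show (Fin.cons (LT.cons δ c s) (fun i : Fin P => g i.succ) : Fin (P + 1) → LT) = g
        rw [← h0]
        exact Fin.cons_self_tail g

theorem ff_rec (N P : ℕ) : ff (N + 1) (P + 1) = ff (N + 1) P + 3 * ff N (P + 2) := by
  unfold ff
  rw [if_neg (Nat.succ_ne_zero P), if_neg (Nat.succ_ne_zero (P + 1))]
  by_cases hP : P = 0
  · subst hP
    rw [if_pos rfl, if_neg (Nat.succ_ne_zero N)]
    have e1 : 2 * (N + 1) + (0 + 1) - 1 = (2 * N + 1) + 1 := by omega
    have e2 : 2 * N + (0 + 2) - 1 = 2 * N + 1 := by omega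
    have e3 : N + 1 + (0 + 1) = N + 2 := by omega
    have e4 : N + (0 + 2) = N + 2 := by omega
    rw [e1, e2, e3, e4, Nat.factorial_succ (2 * N + 1), Nat.factorial_succ N]
    have h1 : (N.factorial : ℝ) ≠ 0 := by exact_mod_cast N.factorial_ne_zero
    have h2 : ((N + 2).factorial : ℝ) ≠ 0 := by exact_mod_cast (N + 2).factorial_ne_zero
    have h3 : ((N : ℝ) + 1) ≠ 0 := by positivity
    push_cast
    field_simp
    ring
  · rw [if_neg hP]
    obtain ⟨p, rfl⟩ := Nat.exists_eq_succ_of_ne_zero hP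
    rw [Nat.succ_eq_add_one]
    have e1 : 2 * (N + 1) + (p + 1 + 1) - 1 = (2 * N + p + 2) + 1 := by omega
    have e2 : 2 * N + (p + 1 + 2) - 1 = 2 * N + p + 2 := by omega
    have e3 : N + 1 + (p + 1 + 1) = (N + p + 2) + 1 := by omega
    have e4 : N + (p + 1 + 2) = (N + p + 2) + 1 := by omega
    have e5 : 2 * (N + 1) + (p + 1) - 1 = 2 * N + p + 2 := by omega
    have e6 : N + 1 + (p + 1) = N + p + 2 := by omega
    rw [e1, e2, e3, e4, e5, e6, Nat.factorial_succ (2 * N + p + 2), Nat.factorial_succ N,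
      Nat.factorial_succ (N + p + 2)]
    have h1 : (N.factorial : ℝ) ≠ 0 := by exact_mod_cast N.factorial_ne_zero
    have h2 : ((N + p + 2).factorial : ℝ) ≠ 0 := by exact_mod_cast (N + p + 2).factorial_ne_zero
    have h3 : ((N : ℝ) + 1) ≠ 0 := by positivity
    have h4 : ((N : ℝ) + p + 2 + 1) ≠ 0 := by positivity
    push_cast
    field_simp
    ring

theorem for_card (N : ℕ) : ∀ P, Finite (For N P) ∧ (Nat.card (For N P) : ℝ) = ff N P := by
  induction N with
  | zero => exact for_zero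
  | succ N ih =>
    intro P
    induction P with
    | zero => exact for_succ_zero N
    | succ P ihP =>
      have e := Equiv.ofBijective _ (splitMap_bij N P)
      haveI := ihP.1
      haveI := (ih (P + 2)).1
      refine ⟨Finite.of_equiv _ e, ?_⟩
      rw [← Nat.card_congr e, Nat.card_sum, Nat.card_prod, ff_rec, ← ihP.2, ← (ih (P + 2)).2]
      simp

/-! ## Codes with `b 0 = 0` -/

/-- a set of `P` down-steps and a tree for every step, trivial at the up-steps -/
abbrev Cod (N P : ℕ) : Type :=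
  Σ D : {D : Finset (Fin (2 * P)) // D.card = P},
    {f : Fin (2 * P) → LT // (∀ j, j ∉ D.1 → f j = LT.nil) ∧ ∑ j, (f j).edges = N}

theorem fib_card (N P : ℕ) (D : Finset (Fin (2 * P))) (hD : D.card = P) :
    Finite {f : Fin (2 * P) → LT // (∀ j, j ∉ D → f j = LT.nil) ∧ ∑ j, (f j).edges = N} ∧
    (Nat.card {f : Fin (2 * P) → LT // (∀ j, j ∉ D → f j = LT.nil) ∧ ∑ j, (f j).edges = N} : ℝ) =
      ff N P := by
  let e : Fin P ≃ D := (D.equivFinOfCardEq hD).symm
  have hsum : ∀ f : Fin (2 * P) → LT, (∀ j, j ∉ D → f j = LT.nil) →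
      ∑ j, (f j).edges = ∑ i : Fin P, (f (e i)).edges := by
    intro f hf
    rw [Equiv.sum_comp e (fun j : D => (f j).edges), Finset.sum_coe_sort D (fun j => (f j).edges)]
    symm
    apply Finset.sum_subset (Finset.subset_univ _)
    intro j _ hj
    rw [hf j hj]
    rfl
  let F : {f : Fin (2 * P) → LT // (∀ j, j ∉ D → f j = LT.nil) ∧ ∑ j, (f j).edges = N} → For N P :=
    fun f => ⟨fun i => f.1 (e i), by rw [← hsum f.1 f.2.1]; exact f.2.2⟩
  have hF : Function.Bijective F := by
    constructor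
    · intro f f' h
      have h1 : ∀ i, f.1 (e i) = f'.1 (e i) := fun i => congrFun (congrArg Subtype.val h) i
      apply Subtype.ext
      funext j
      by_cases hj : j ∈ D
      · have h2 := h1 (e.symm ⟨j, hj⟩)
        rw [Equiv.apply_symm_apply] at h2
        exact h2
      · rw [f.2.1 j hj, f'.2.1 j hj]
    · intro g
      classical
      let f : Fin (2 * P) → LT := fun j => if h : j ∈ D then g.1 (e.symm ⟨j, h⟩) else LT.nil
      have hf0 : ∀ j, j ∉ D → f j = LT.nil := fun j hj => dif_neg hj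
      have hf1 : ∀ i, f (e i) = g.1 i := by
        intro i
        show (if h : ((e i : D) : Fin (2 * P)) ∈ D then g.1 (e.symm ⟨(e i : D), h⟩) else LT.nil) = _
        rw [dif_pos (e i).2]
        exact congrArg g.1 (e.symm_apply_apply i)
      refine ⟨⟨f, hf0, ?_⟩, ?_⟩
      · rw [hsum f hf0]
        simp only [hf1]
        exact g.2
      · apply Subtype.ext
        funext i
        exact hf1 i
  have E := Equiv.ofBijective F hF
  haveI := (for_card N P).1
  refine ⟨Finite.of_equiv _ E.symm, ?_⟩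
  rw [Nat.card_congr E]
  exact (for_card N P).2

theorem cod_card (N P : ℕ) : (Nat.card (Cod N P) : ℝ) = (2 * P).choose P * ff N P := by
  haveI : ∀ D : {D : Finset (Fin (2 * P)) // D.card = P}, Finite {f : Fin (2 * P) → LT //
      (∀ j, j ∉ D.1 → f j = LT.nil) ∧ ∑ j, (f j).edges = N} := fun D => (fib_card N P D.1 D.2).1
  rw [Nat.card_sigma]
  push_cast
  rw [Finset.sum_congr rfl (fun D _ => (fib_card N P D.1 D.2).2), Finset.sum_const, nsmul_eq_mul]
  congr 1
  rw [Finset.card_univ, Fintype.card_finset_len, Fintype.card_fin]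

/-- down-steps of a code -/
noncomputable def dwn {P : ℕ} (c : Code P) : Finset (Fin (2 * P)) :=
  letI := Classical.decPred (fun j : Fin (2 * P) => c.b (((j : ℕ) : ℤ) + 1) = c.b ((j : ℕ) : ℤ) - 1)
  Finset.univ.filter (fun j : Fin (2 * P) => c.b (((j : ℕ) : ℤ) + 1) = c.b ((j : ℕ) : ℤ) - 1)

theorem mem_dwn {P : ℕ} (c : Code P) (j : Fin (2 * P)) :
    j ∈ dwn c ↔ c.b (((j : ℕ) : ℤ) + 1) = c.b ((j : ℕ) : ℤ) - 1 := by
  unfold dwn
  simp

theorem not_dwn {P : ℕ} (c : Code P) (j : Fin (2 * P)) (h : j ∉ dwn c) :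
    c.b (((j : ℕ) : ℤ) + 1) = c.b ((j : ℕ) : ℤ) + 1 := by
  rw [mem_dwn] at h
  rcases c.step ((j : ℕ) : ℤ) with h1 | h1
  · exact h1
  · exact absurd h1 h

theorem size_eq {P : ℕ} (c : Code P) :
    c.size = ∑ j : Fin (2 * P), (c.t ((j : ℕ) : ℤ)).edges := by
  classical
  unfold Code.size
  have h1 : ∑ i ∈ dn P c.b, (c.t i).edges =
      ∑ i ∈ Finset.Ico (0 : ℤ) (2 * P), (c.t i).edges := by
    apply Finset.sum_subset
    · intro i hi
      exact (Finset.mem_filter.1 hi).1
    · intro i hi hn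
      rcases c.step i with h | h
      · rw [c.up i h]
        rfl
      · exact absurd (Finset.mem_filter.2 ⟨hi, h⟩) hn
  rw [h1]
  symm
  apply Finset.sum_bij (fun (j : Fin (2 * P)) _ => ((j : ℕ) : ℤ))
  · intro j _
    rw [Finset.mem_Ico]
    have := j.2
    constructor
    · positivity
    · exact_mod_cast this
  · intro j _ j' _ h
    apply Fin.ext
    exact_mod_cast h
  · intro i hi
    rw [Finset.mem_Ico] at hi
    refine ⟨⟨i.toNat, ?_⟩, Finset.mem_univ _, ?_⟩
    · omega
    · show ((i.toNat : ℕ) : ℤ) = i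
      omega
  · intro j _
    rfl

/-- the walk with given down-steps -/
def wk (n : ℕ) (D : Finset (Fin n)) : ℕ → ℤ
  | 0 => 0
  | k + 1 => wk n D k + (if h : k < n then (if (⟨k, h⟩ : Fin n) ∈ D then -1 else 1) else 0)

theorem wk_eq (n : ℕ) (D : Finset (Fin n)) (k : ℕ) (hk : k ≤ n) :
    wk n D k = (k : ℤ) - 2 * ((D.filter (fun j : Fin n => (j : ℕ) < k)).card : ℤ) := by
  induction k with
  | zero => simp [wk]
  | succ k ih =>
    have hk' : k < n := hk
    have h1 := ih hk'.le
    have h2 : D.filter (fun j : Fin n => (j : ℕ) < k + 1) =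
        if (⟨k, hk'⟩ : Fin n) ∈ D then insert ⟨k, hk'⟩ (D.filter (fun j : Fin n => (j : ℕ) < k))
        else D.filter (fun j : Fin n => (j : ℕ) < k) := by
      split_ifs with h
      · ext j
        rw [Finset.mem_filter, Finset.mem_insert, Finset.mem_filter]
        constructor
        · rintro ⟨ha, hb⟩
          by_cases hj : (j : ℕ) = k
          · left
            exact Fin.ext hj
          · right
            exact ⟨ha, by omega⟩
        · rintro (ha | ⟨ha, hb⟩)
          · subst ha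
            exact ⟨h, Nat.lt_succ_self _⟩
          · exact ⟨ha, by omega⟩
      · ext j
        rw [Finset.mem_filter, Finset.mem_filter]
        constructor
        · rintro ⟨ha, hb⟩
          refine ⟨ha, ?_⟩
          by_contra hc
          apply h
          have : j = ⟨k, hk'⟩ := Fin.ext (by show (j : ℕ) = k; omega)
          rw [← this]
          exact ha
        · rintro ⟨ha, hb⟩
          exact ⟨ha, by omega⟩
    show wk n D k + (if h : k < n then (if (⟨k, h⟩ : Fin n) ∈ D then -1 else 1) else 0) = _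
    rw [dif_pos hk', h1, h2]
    split_ifs with h
    · rw [Finset.card_insert_of_notMem (by
        intro hh
        exact absurd (Finset.mem_filter.1 hh).2 (lt_irrefl _))]
      push_cast
      ring
    · push_cast
      ring

theorem wk_end (P : ℕ) (D : Finset (Fin (2 * P))) (hD : D.card = P) : wk (2 * P) D (2 * P) = 0 := by
  rw [wk_eq _ _ _ le_rfl]
  have h1 : D.filter (fun j : Fin (2 * P) => (j : ℕ) < 2 * P) = D := by
    rw [Finset.filter_eq_self]
    intro j _
    exact j.2
  rw [h1, hD]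
  push_cast
  ring

theorem code_wk {P : ℕ} (c : Code P) (h0 : c.b 0 = 0) (k : ℕ) (hk : k ≤ 2 * P) :
    c.b (k : ℤ) = wk (2 * P) (dwn c) k := by
  induction k with
  | zero => exact h0
  | succ k ih =>
    have hk' : k < 2 * P := hk
    have h1 := ih hk'.le
    show _ = wk (2 * P) (dwn c) k + (if h : k < 2 * P then
      (if (⟨k, h⟩ : Fin (2 * P)) ∈ dwn c then -1 else 1) else 0)
    rw [dif_pos hk', ← h1]
    have e : ((k + 1 : ℕ) : ℤ) = (k : ℤ) + 1 := by push_cast; rfl
    rw [e]
    by_cases h : (⟨k, hk'⟩ : Fin (2 * P)) ∈ dwn c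
    · rw [if_pos h]
      have h2 := (mem_dwn c _).1 h
      rw [h2]
      ring
    · rw [if_neg h]
      exact not_dwn c _ h

theorem dwn_card {P : ℕ} (c : Code P) (h0 : c.b 0 = 0) : (dwn c).card = P := by
  have h1 := code_wk c h0 (2 * P) le_rfl
  rw [wk_eq _ _ _ le_rfl] at h1
  have h2 : (dwn c).filter (fun j : Fin (2 * P) => (j : ℕ) < 2 * P) = dwn c := by
    rw [Finset.filter_eq_self]
    intro j _
    exact j.2
  have h3 : c.b ((2 * P : ℕ) : ℤ) = 0 := by
    have := c.per_b 0
    rw [h0, zero_add] at this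
    rw [← this]
    push_cast
    rfl
  rw [h2, h3] at h1
  push_cast at h1
  omega

theorem wk_next {P : ℕ} (hP : 1 ≤ P) (D : Finset (Fin (2 * P))) (hD : D.card = P) (i : ℤ) :
    ∃ h : (i % (2 * P)).toNat < 2 * P, wk (2 * P) D ((i + 1) % (2 * P)).toNat =
      wk (2 * P) D (i % (2 * P)).toNat +
        (if (⟨(i % (2 * P)).toNat, h⟩ : Fin (2 * P)) ∈ D then -1 else 1) := by
  have h1 : 0 ≤ i % (2 * P) := Int.emod_nonneg _ (by omega)
  have h2 : i % (2 * P) < 2 * P := Int.emod_lt_of_pos _ (by omega)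
  have h3 : (i % (2 * P)).toNat < 2 * P := by omega
  refine ⟨h3, ?_⟩
  have h4 : wk (2 * P) D ((i + 1) % (2 * P)).toNat = wk (2 * P) D ((i % (2 * P)).toNat + 1) := by
    have e : (i + 1) % (2 * P) = (i % (2 * P) + 1) % (2 * P) := by
      rw [Int.emod_add_emod]
    by_cases h : i % (2 * P) + 1 < 2 * P
    · rw [e, Int.emod_eq_of_lt (by omega) h]
      congr 1
      omega
    · have h5 : i % (2 * P) + 1 = 2 * P := by omega
      have h6 : (i % (2 * P)).toNat + 1 = 2 * P := by omega
      rw [e, h5, h6, Int.emod_self, wk_end P D hD]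
      rfl
  rw [h4]
  show wk (2 * P) D (i % (2 * P)).toNat + (if h : (i % (2 * P)).toNat < 2 * P then
      (if (⟨(i % (2 * P)).toNat, h⟩ : Fin (2 * P)) ∈ D then -1 else 1) else 0) = _
  rw [dif_pos h3]

/-- the code of a set of down-steps and trees -/
noncomputable def mk {P : ℕ} (hP : 1 ≤ P) (D : Finset (Fin (2 * P))) (hD : D.card = P)
    (f : Fin (2 * P) → LT) (hf : ∀ j, j ∉ D → f j = LT.nil) : Code P where
  b i := wk (2 * P) D (i % (2 * P)).toNat
  t i := if h : (i % (2 * P)).toNat < 2 * P then f ⟨(i % (2 * P)).toNat, h⟩ else LT.nil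
  step := by
    intro i
    obtain ⟨h, e⟩ := wk_next hP D hD i
    rw [e]
    split_ifs
    · right
      ring
    · left
      rfl
  up := by
    intro i hi
    obtain ⟨h, e⟩ := wk_next hP D hD i
    rw [e] at hi
    rw [dif_pos h]
    apply hf
    intro hc
    rw [if_pos hc] at hi
    omega
  per_b := by
    intro i
    show wk (2 * P) D ((i + 2 * P) % (2 * P)).toNat = _
    rw [Int.add_emod_right]
  per_t := by
    intro i
    show (if h : ((i + 2 * P) % (2 * P)).toNat < 2 * P then f ⟨((i + 2 * P) % (2 * P)).toNat, h⟩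
      else LT.nil) = _
    simp only [Int.add_emod_right]

theorem cod_ext {N P : ℕ} (x y : Cod N P) (h1 : x.1.1 = y.1.1) (h2 : x.2.1 = y.2.1) : x = y := by
  obtain ⟨⟨D, hD⟩, ⟨f, hf⟩⟩ := x
  obtain ⟨⟨D', hD'⟩, ⟨f', hf'⟩⟩ := y
  have h1' : D = D' := h1
  have h2' : f = f' := h2
  subst h1'
  subst h2'
  rfl

theorem code_bij (N P : ℕ) (hP : 1 ≤ P) :
    Nat.card {c : Code P // c.b 0 = 0 ∧ c.size = N} = Nat.card (Cod N P) := by
  let F : {c : Code P // c.b 0 = 0 ∧ c.size = N} → Cod N P := fun c =>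
    ⟨⟨dwn c.1, dwn_card c.1 c.2.1⟩, ⟨fun j => c.1.t ((j : ℕ) : ℤ),
      fun j hj => c.1.up _ (not_dwn c.1 j hj), by rw [← size_eq]; exact c.2.2⟩⟩
  apply Nat.card_congr
  apply Equiv.ofBijective F
  constructor
  · rintro ⟨c, hc0, hcN⟩ ⟨c', hc0', hcN'⟩ h
    have h1 : dwn c = dwn c' := congrArg (fun x : Cod N P => x.1.1) h
    have h2 : (fun j : Fin (2 * P) => c.t ((j : ℕ) : ℤ)) =
        fun j : Fin (2 * P) => c'.t ((j : ℕ) : ℤ) :=
      congrArg (fun x : Cod N P => x.2.1) h
    apply Subtype.ext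
    have hq : ∀ i : ℤ, ∃ k : ℕ, k < 2 * P ∧ i % (2 * P) = k := by
      intro i
      have h1 : 0 ≤ i % (2 * P) := Int.emod_nonneg _ (by omega)
      have h2 : i % (2 * P) < 2 * P := Int.emod_lt_of_pos _ (by omega)
      exact ⟨(i % (2 * P)).toNat, by omega, by omega⟩
    apply Code.ext
    · funext i
      obtain ⟨k, hk, e⟩ := hq i
      rw [per_emod c.b _ c.per_b i, per_emod c'.b _ c'.per_b i, e, code_wk c hc0 k hk.le,
        code_wk c' hc0' k hk.le, h1]
    · funext i
      obtain ⟨k, hk, e⟩ := hq i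
      rw [per_emod c.t _ c.per_t i, per_emod c'.t _ c'.per_t i, e]
      exact congrFun h2 ⟨k, hk⟩
  · rintro ⟨⟨D, hD⟩, ⟨f, hf, hfN⟩⟩
    have hm : ∀ k : ℕ, k < 2 * P → ((k : ℤ) % (2 * P)).toNat = k := by
      intro k hk
      rw [Int.emod_eq_of_lt (by omega) (by omega)]
      omega
    have ht : ∀ j : Fin (2 * P), (mk hP D hD f hf).t ((j : ℕ) : ℤ) = f j := by
      intro j
      show (if h : (((j : ℕ) : ℤ) % (2 * P)).toNat < 2 * P then
        f ⟨(((j : ℕ) : ℤ) % (2 * P)).toNat, h⟩ else LT.nil) = _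
      rw [dif_pos (by rw [hm _ j.2]; exact j.2)]
      congr 1
      apply Fin.ext
      exact hm _ j.2
    have h0 : (mk hP D hD f hf).b 0 = 0 := by
      show wk (2 * P) D ((0 : ℤ) % (2 * P)).toNat = 0
      rw [Int.zero_emod]
      rfl
    have hs : (mk hP D hD f hf).size = N := by
      rw [size_eq, ← hfN]
      exact Finset.sum_congr rfl (fun j _ => by rw [ht])
    have hd : dwn (mk hP D hD f hf) = D := by
      ext j
      rw [mem_dwn]
      obtain ⟨h, e⟩ := wk_next hP D hD ((j : ℕ) : ℤ)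
      have e' : (mk hP D hD f hf).b (((j : ℕ) : ℤ) + 1) = (mk hP D hD f hf).b ((j : ℕ) : ℤ) +
        (if (⟨(((j : ℕ) : ℤ) % (2 * P)).toNat, h⟩ : Fin (2 * P)) ∈ D then -1 else 1) := e
      have hj : (⟨(((j : ℕ) : ℤ) % (2 * P)).toNat, h⟩ : Fin (2 * P)) = j := Fin.ext (hm _ j.2)
      rw [e', hj]
      split_ifs with hj'
      · exact ⟨fun _ => hj', fun _ => by ring⟩
      · constructor
        · intro h
          omega
        · intro h
          exact absurd h hj'
    refine ⟨⟨mk hP D hD f hf, h0, hs⟩, ?_⟩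
    apply cod_ext
    · exact hd
    · exact funext ht

theorem st_T01 : ST_T01 := by
  intro N P hP
  rw [code_bij N P hP, cod_card]
  unfold ff uu
  rw [if_neg (by omega)]
  obtain ⟨p, rfl⟩ := Nat.exists_eq_succ_of_ne_zero (by omega : P ≠ 0)
  rw [Nat.succ_eq_add_one]
  have h1 : ((2 * (p + 1)).choose (p + 1) : ℝ) = (2 * (p + 1)).factorial /
      ((p + 1).factorial * (p + 1).factorial) := by
    rw [Nat.cast_choose ℝ (by omega : p + 1 ≤ 2 * (p + 1))]
    congr 2
    have : 2 * (p + 1) - (p + 1) = p + 1 := by omega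
    rw [this]
  rw [h1, Nat.factorial_succ (N + (p + 1)), Nat.add_sub_cancel]
  have h2 : (N.factorial : ℝ) ≠ 0 := by exact_mod_cast N.factorial_ne_zero
  have h3 : ((N + (p + 1)).factorial : ℝ) ≠ 0 := by exact_mod_cast (N + (p + 1)).factorial_ne_zero
  have h4 : (p.factorial : ℝ) ≠ 0 := by exact_mod_cast p.factorial_ne_zero
  have h5 : ((N : ℝ) + (p + 1) + 1) ≠ 0 := by positivity
  have h6 : ((p : ℝ) + 1) ≠ 0 := by positivity
  rw [Nat.factorial_succ p]
  push_cast
  field_simp

end QR22
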