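import Pool.Agent.Helper98.QR.StmtsT

/-!
# Row T13: the limit of the pinch probabilities
-/

namespace QR22

open QR Filter Topology

theorem uu_nonneg (N P : ℕ) : 0 ≤ uu N P := by
  unfold uu
  positivity

theorem shift_lim (v : ℕ → ℝ) (c : ℝ)
    (hv : Tendsto (fun m : ℕ => v m * (m : ℝ) ^ (5 / 2 : ℝ)) atTop (𝓝 c)) (a : ℕ) :
    Tendsto (fun N : ℕ => v (N - a) * (N : ℝ) ^ (5 / 2 : ℝ)) atTop (𝓝 c) := by
  rw [← tendsto_add_atTop_iff_nat a]
  have h1 : Tendsto (fun m : ℕ => (((m : ℝ) + a) / m) ^ (5 / 2 : ℝ)) atTop (𝓝 1) := by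
    have h2 : Tendsto (fun m : ℕ => ((m : ℝ) + a) / m) atTop (𝓝 1) := by
      have h3 : Tendsto (fun m : ℕ => 1 + (a : ℝ) / m) atTop (𝓝 (1 + 0)) :=
        tendsto_const_nhds.add (tendsto_const_div_atTop_nhds_zero_nat (a : ℝ))
      rw [add_zero] at h3
      refine h3.congr' ?_
      filter_upwards [eventually_gt_atTop 0] with m hm
      have : (m : ℝ) ≠ 0 := by positivity
      field_simp
    have h4 := h2.rpow_const (p := (5 / 2 : ℝ)) (Or.inl one_ne_zero)
    rw [Real.one_rpow] at h4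
    exact h4
  have h5 := hv.mul h1
  rw [mul_one] at h5
  refine h5.congr' ?_
  filter_upwards [eventually_gt_atTop 0] with m hm
  have hm' : (0 : ℝ) < m := by positivity
  rw [Nat.add_sub_cancel, mul_assoc, ← Real.mul_rpow (by positivity) (by positivity)]
  congr 2
  push_cast
  field_simp

theorem st_T13 (h10 : ST_T10) (h11 : ST_T11) (h12 : ST_T12) : ST_T13 := by
  intro P κ hκ hP
  obtain ⟨W, hW, hWle⟩ := h12 κ hκ
  have hPκ : 1 ≤ P - κ := by omega
  have hv := h10 (P - κ) hPκ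
  set u : ℕ → ℝ := fun a => uu a κ / 12 ^ a with hu
  set v : ℕ → ℝ := fun m => uu m (P - κ) / 12 ^ m with hvd
  have hu0 : ∀ a, 0 ≤ u a := fun a => div_nonneg (uu_nonneg _ _) (by positivity)
  have hv0 : ∀ a, 0 ≤ v a := fun a => div_nonneg (uu_nonneg _ _) (by positivity)
  obtain ⟨C, hC⟩ := hv.bddAbove_range
  have hC' : ∀ m : ℕ, v m * (m : ℝ) ^ (5 / 2 : ℝ) ≤ C := fun m => hC ⟨m, rfl⟩
  have hC0 : 0 ≤ C := le_trans (mul_nonneg (hv0 0) (by positivity)) (hC' 0)
  classical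
  let f : ℕ → ℕ → ℝ := fun N a => if a ≤ N ∧ N ≤ 2 * P * (N - a) then
    u a * (v (N - a) * (N : ℝ) ^ (5 / 2 : ℝ)) else 0
  have hlim : Tendsto (fun N => ∑' a, f N a) atTop (𝓝 (∑' a, u a * cP (P - κ))) := by
    apply tendsto_tsum_of_dominated_convergence
      (bound := fun a => u a * ((2 * P : ℝ) ^ (5 / 2 : ℝ) * C))
    · exact hW.summable.mul_right _
    · intro a
      have h1 := (shift_lim v (cP (P - κ)) hv a).const_mul (u a)
      refine h1.congr' ?_
      filter_upwards [eventually_ge_atTop (2 * a)] with N hN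
      have h2 : a ≤ N ∧ N ≤ 2 * P * (N - a) := by
        refine ⟨by omega, ?_⟩
        have h3 : N ≤ 2 * (N - a) := by omega
        calc N ≤ 2 * (N - a) := h3
          _ ≤ 2 * P * (N - a) := Nat.mul_le_mul_right _ (by omega)
      show _ = (if a ≤ N ∧ N ≤ 2 * P * (N - a) then _ else _)
      rw [if_pos h2]
    · filter_upwards with N a
      show ‖(if a ≤ N ∧ N ≤ 2 * P * (N - a) then
        u a * (v (N - a) * (N : ℝ) ^ (5 / 2 : ℝ)) else 0)‖ ≤ _
      split_ifs with h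
      · rw [Real.norm_of_nonneg (mul_nonneg (hu0 _) (mul_nonneg (hv0 _) (by positivity)))]
        apply mul_le_mul_of_nonneg_left _ (hu0 a)
        have h1 : (N : ℝ) ≤ 2 * P * ((N - a : ℕ) : ℝ) := by exact_mod_cast h.2
        calc v (N - a) * (N : ℝ) ^ (5 / 2 : ℝ)
            ≤ v (N - a) * (2 * P * ((N - a : ℕ) : ℝ)) ^ (5 / 2 : ℝ) := by
              apply mul_le_mul_of_nonneg_left _ (hv0 _)
              exact Real.rpow_le_rpow (by positivity) h1 (by norm_num)
          _ = (2 * P : ℝ) ^ (5 / 2 : ℝ) * (v (N - a) * ((N - a : ℕ) : ℝ) ^ (5 / 2 : ℝ)) := by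
              rw [Real.mul_rpow (by positivity) (by positivity)]
              ring
          _ ≤ _ := mul_le_mul_of_nonneg_left (hC' _) (by positivity)
      · rw [norm_zero]
        exact mul_nonneg (hu0 a) (mul_nonneg (by positivity) hC0)
  have hsum : ∑' a, u a * cP (P - κ) = W * cP (P - κ) := by
    rw [tsum_mul_right, hW.tsum_eq]
  rw [hsum] at hlim
  have hP1 : 1 ≤ P := by omega
  have hR := (h10 P hP1).const_mul (64 / (κ : ℝ) ^ (5 / 2 : ℝ))
  have hk0 : (0 : ℝ) < (κ : ℝ) ^ (5 / 2 : ℝ) := by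
    have : (0 : ℝ) < κ := by exact_mod_cast hκ
    positivity
  have hlt : W * cP (P - κ) < 64 / (κ : ℝ) ^ (5 / 2 : ℝ) * cP P := by
    have h1 := (h11 (P - κ) hPκ).2
    have h2 := (h11 P hP1).1
    have h3 : 0 ≤ cP (P - κ) := by
      refine le_trans ?_ (h11 (P - κ) hPκ).1
      positivity
    have hs : Real.sqrt ((P - κ : ℕ) : ℝ) ≤ Real.sqrt P := by
      apply Real.sqrt_le_sqrt
      exact_mod_cast Nat.sub_le P κ
    have h8 : (8 : ℝ) ^ κ * 8 ^ (P - κ) = 8 ^ P := by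
      rw [← pow_add]
      congr 1
      omega
    have hsP : 0 < Real.sqrt P := by
      apply Real.sqrt_pos.2
      exact_mod_cast hP1
    calc W * cP (P - κ) ≤ 2 * 8 ^ κ / (κ : ℝ) ^ (5 / 2 : ℝ) * (8 ^ (P - κ) * Real.sqrt P) := by
          apply mul_le_mul hWle _ h3 (by positivity)
          exact le_trans h1 (mul_le_mul_of_nonneg_left hs (by positivity))
      _ = 2 * 8 ^ P * Real.sqrt P / (κ : ℝ) ^ (5 / 2 : ℝ) := by
          rw [← h8]
          field_simp
      _ < 64 / (κ : ℝ) ^ (5 / 2 : ℝ) * (8 ^ P * Real.sqrt P / 8) := by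
          rw [div_mul_eq_mul_div]
          apply div_lt_div_of_pos_right _ hk0
          have : 0 < (8 : ℝ) ^ P * Real.sqrt P := by positivity
          nlinarith
      _ ≤ _ := mul_le_mul_of_nonneg_left h2 (by positivity)
  filter_upwards [hlim.eventually_lt hR hlt, eventually_gt_atTop 0] with N hN hN0
  have hts : ∑' a, f N a = ∑ a ∈ (Finset.range (N + 1)).filter (fun a => N ≤ 2 * P * (N - a)),
      u a * (v (N - a) * (N : ℝ) ^ (5 / 2 : ℝ)) := by
    rw [tsum_eq_sum (s := (Finset.range (N + 1)).filter (fun a => N ≤ 2 * P * (N - a)))]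
    · apply Finset.sum_congr rfl
      intro a ha
      rw [Finset.mem_filter, Finset.mem_range] at ha
      exact if_pos ⟨by omega, ha.2⟩
    · intro a ha
      rw [Finset.mem_filter, Finset.mem_range] at ha
      apply if_neg
      intro h
      exact ha ⟨by omega, h.2⟩
  rw [hts] at hN
  have hNp : (0 : ℝ) < (N : ℝ) ^ (5 / 2 : ℝ) := by
    have : (0 : ℝ) < N := by exact_mod_cast hN0
    positivity
  have e1 : ∑ a ∈ (Finset.range (N + 1)).filter (fun a => N ≤ 2 * P * (N - a)),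
      u a * (v (N - a) * (N : ℝ) ^ (5 / 2 : ℝ)) =
      (∑ a ∈ (Finset.range (N + 1)).filter (fun a => N ≤ 2 * P * (N - a)),
        uu a κ * uu (N - a) (P - κ)) * ((N : ℝ) ^ (5 / 2 : ℝ) / 12 ^ N) := by
    rw [Finset.sum_mul]
    apply Finset.sum_congr rfl
    intro a ha
    rw [Finset.mem_filter, Finset.mem_range] at ha
    have h12' : (12 : ℝ) ^ N = 12 ^ a * 12 ^ (N - a) := by
      rw [← pow_add]
      congr 1
      omega
    show uu a κ / 12 ^ a * (uu (N - a) (P - κ) / 12 ^ (N - a) * _) = _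
    rw [h12']
    field_simp
  have e2 : 64 / (κ : ℝ) ^ (5 / 2 : ℝ) * (uu N P / 12 ^ N * (N : ℝ) ^ (5 / 2 : ℝ)) =
      (64 / (κ : ℝ) ^ (5 / 2 : ℝ) * uu N P) * ((N : ℝ) ^ (5 / 2 : ℝ) / 12 ^ N) := by
    ring
  rw [e1, e2] at hN
  exact (lt_of_mul_lt_mul_right hN (by positivity)).le

end QR22
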