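import Pool.Agent.Helper58.CP.Stmts

/-!
# Row BD3: the boundary of a set of faces of a triangulation has at least three edges
-/

namespace QR22

noncomputable section

open Finset Classical CP

variable {D V F : Type} [Fintype D] [Fintype V] [Fintype F]

theorem face_apply (m : LM D V F) (d : D) : m.face d = m.rot (m.opp d) := rfl

theorem fc_rot (m : LM D V F) (d : D) : m.fc (m.rot d) = m.fc (m.opp d) := by
  have h := m.fc_face (m.opp d)
  rw [m.opp_opp] at h
  exact h

theorem vt_rot_pow (m : LM D V F) (d : D) (k : ℕ) : m.vt ((m.rot ^ k) d) = m.vt d := by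
  induction k with
  | zero => rfl
  | succ k ih => rw [pow_succ', Equiv.Perm.mul_apply, m.vt_rot, ih]

/-- a boundary dart ends where another one starts -/
theorem bd_next (m : LM D V F) (S : Set F) (d0 : D) (h1 : m.fc d0 ∈ S) (h2 : m.fc (m.opp d0) ∉ S) :
    ∃ d, m.fc d ∈ S ∧ m.fc (m.opp d) ∉ S ∧ m.vt d = m.vt (m.opp d0) := by
  by_contra hcon
  have key : ∀ k : ℕ, m.fc ((m.rot ^ (k + 1)) (m.opp d0)) ∈ S := by
    intro k
    induction k with
    | zero =>
      rw [zero_add, pow_one, fc_rot, m.opp_opp]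
      exact h1
    | succ k ih =>
      rw [pow_succ', Equiv.Perm.mul_apply, fc_rot]
      by_contra h3
      exact hcon ⟨_, ih, h3, vt_rot_pow m _ _⟩
  have h4 := key (orderOf m.rot - 1)
  rw [Nat.sub_add_cancel (orderOf_pos m.rot), pow_orderOf_eq_one] at h4
  exact h2 h4

/-- there is a boundary dart -/
theorem bd_ne (m : LM D V F) (S : Set F) (h1 : S.Nonempty) (h2 : S ≠ Set.univ) :
    ∃ d, m.fc d ∈ S ∧ m.fc (m.opp d) ∉ S := by
  by_contra hcon
  have hc : ∀ d, m.fc d ∈ S → m.fc (m.opp d) ∈ S := by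
    intro d hd
    by_contra h3
    exact hcon ⟨d, hd, h3⟩
  obtain ⟨φ, hφ⟩ := h1
  obtain ⟨d, rfl⟩ := m.fc_surj φ
  have h3 := m.conn {d | m.fc d ∈ S} ⟨d, hφ⟩
    (fun d hd => by
      show m.fc (m.rot d) ∈ S
      rw [fc_rot]
      exact hc d hd)
    (fun d hd => hc d hd)
  apply h2
  rw [Set.eq_univ_iff_forall]
  intro ψ
  obtain ⟨e, rfl⟩ := m.fc_surj ψ
  have h4 : e ∈ {d | m.fc d ∈ S} := by
    rw [h3]
    exact Set.mem_univ e
  exact h4

theorem st_BD3 : ST_BD3 := by
  intro D V F _ _ _ m hT S h1 h2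
  obtain ⟨d0, ha0, hb0⟩ := bd_ne m S h1 h2
  obtain ⟨d1, ha1, hb1, hv1⟩ := bd_next m S d0 ha0 hb0
  obtain ⟨d2, ha2, hb2, hv2⟩ := bd_next m S d1 ha1 hb1
  have n01 : d0 ≠ d1 := by
    intro h
    apply hT.noloop d0
    rw [← hv1, ← h]
  have n12 : d1 ≠ d2 := by
    intro h
    apply hT.noloop d1
    rw [← hv2, ← h]
  have n02 : d0 ≠ d2 := by
    intro h
    have h3 : d1 = m.opp d0 := by
      apply hT.inj
      · exact hv1
      · rw [m.opp_opp, ← hv2, ← h]
    rw [h3] at ha1
    exact hb0 ha1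
  have h3 : ({d0, d1, d2} : Finset D) ⊆
      Finset.univ.filter (fun d => m.fc d ∈ S ∧ m.fc (m.opp d) ∉ S) := by
    intro d hd
    simp only [Finset.mem_insert, Finset.mem_singleton] at hd
    simp only [Finset.mem_filter, Finset.mem_univ, true_and]
    rcases hd with rfl | rfl | rfl
    · exact ⟨ha0, hb0⟩
    · exact ⟨ha1, hb1⟩
    · exact ⟨ha2, hb2⟩
  have h4 := Finset.card_le_card h3
  have h5 : ({d0, d1, d2} : Finset D).card = 3 := by
    rw [Finset.card_insert_of_notMem, Finset.card_insert_of_notMem, Finset.card_singleton]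
    · simpa using n12
    · simp only [Finset.mem_insert, Finset.mem_singleton, not_or]
      exact ⟨n01, n02⟩
  rw [h5] at h4
  exact h4

end

end QR22
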