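import Pool.Agent.Helper98.QR.StmtsE

/-!
# Row E10, part 1: transport of disc models and isolated vertices
-/

namespace QR22

open QR

/-- transport of a disc model along an equivalence of the vertex sets -/
theorem dm_equiv {K : ℝ} {V W : Type} (c : V → V → ℕ) (c' : W → W → ℕ) (e : V ≃ W)
    (hc : ∀ u v, c' (e u) (e v) = c u v) (h : Nonempty (SPR.DiscModel K c)) :
    Nonempty (SPR.DiscModel K c') := by
  classical
  obtain ⟨M⟩ := h
  have hc' : ∀ u v, c' u v = c (e.symm u) (e.symm v) := by
    intro u v
    rw [← hc, e.apply_symm_apply, e.apply_symm_apply]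
  have hdeg : ∀ v, SPR.deg c' (e v) = SPR.deg c v := by
    intro v
    unfold SPR.deg
    rw [← finsum_comp_equiv e]
    apply finsum_congr
    intro y
    exact hc v y
  refine ⟨{ N := M.N, ctr := M.ctr, rad := M.rad, own := fun d => e (M.own d),
            root := fun v => M.root (e.symm v), par := M.par, depth := M.depth, e := M.e,
            rad_pos := M.rad_pos, disj := M.disj
            own_root := ?_, par_root := ?_, depth_eq_zero := ?_, own_par := ?_,
            depth_par := M.depth_par, par_touch := M.par_touch, e_symm := M.e_symm,
            e_touch := M.e_touch, e_sum := ?_, size := ?_, balance := ?_ }⟩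
  · intro v
    rw [M.own_root, e.apply_symm_apply]
  · intro v
    exact M.par_root _
  · intro d
    rw [e.symm_apply_apply]
    exact M.depth_eq_zero d
  · intro d
    rw [M.own_par]
  · intro u v
    rw [hc' u v, ← M.e_sum]
    have h1 : ∀ (d : Fin M.N) (w : W), (e (M.own d) = w) = (M.own d = e.symm w) := by
      intro d w
      rw [Equiv.apply_eq_iff_eq_symm_apply]
    simp only [h1]
  · intro v
    have h1 := M.size (e.symm v)
    have h2 := hdeg (e.symm v)
    rw [e.apply_symm_apply] at h2
    rw [h2]
    have h3 : ∀ (d : Fin M.N) (w : W), (e (M.own d) = w) = (M.own d = e.symm w) := by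
      intro d w
      rw [Equiv.apply_eq_iff_eq_symm_apply]
    simp only [h3]
    exact h1
  · intro d
    rw [hdeg]
    exact M.balance d

/-- one vertex without edges -/
theorem dm_point {K : ℝ} (hK : 1 ≤ K) : Nonempty (SPR.DiscModel K (fun _ _ : Unit => 0)) := by
  classical
  refine ⟨{ N := 1, ctr := fun _ => 0, rad := fun _ => 1, own := fun _ => (),
            root := fun _ => 0, par := fun _ => 0, depth := fun _ => 0, e := fun _ _ => 0,
            rad_pos := fun _ => one_pos, disj := fun d d' h => absurd (Subsingleton.elim d d') h
            own_root := fun _ => rfl, par_root := fun _ => rfl,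
            depth_eq_zero := fun d => ⟨fun _ => Subsingleton.elim _ _, fun _ => rfl⟩,
            own_par := fun _ => rfl,
            depth_par := fun d h => absurd rfl h, par_touch := fun d h => absurd rfl h,
            e_symm := fun _ _ => rfl,
            e_touch := fun _ _ h => absurd rfl h, e_sum := ?_, size := ?_, balance := ?_ }⟩
  · intro u v
    simp
  · intro v
    have h1 : SPR.deg (fun _ _ : Unit => 0) v = 0 := by
      unfold SPR.deg
      simp
    rw [h1]
    simpa using hK
  · intro d
    have h1 : ∀ v, SPR.deg (fun _ _ : Unit => 0) v = 0 := by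
      intro v
      unfold SPR.deg
      simp
    rw [h1]
    simp

/-- adding vertices without edges -/
theorem dm_isolated (h11 : ST_E11) {K : ℝ} (hK : 1 ≤ K) {V W : Type} [Finite V] [Finite W]
    (c : V → V → ℕ) (c' : W → W → ℕ) (f : V → W) (hf : Function.Injective f)
    (hc : ∀ u v, c' (f u) (f v) = c u v)
    (h0 : ∀ w, w ∉ Set.range f → ∀ w', c' w w' = 0) (h0' : ∀ w, w ∉ Set.range f → ∀ w', c' w' w = 0)
    (h : Nonempty (SPR.DiscModel K c)) : Nonempty (SPR.DiscModel K c') := by
  classical
  let ι : Type := Option {w : W // w ∉ Set.range f}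
  let VV : ι → Type := fun i => match i with
    | none => V
    | some _ => Unit
  haveI : ∀ i, Finite (VV i) := by
    intro i
    cases i with
    | none => exact (inferInstance : Finite V)
    | some w => exact (inferInstance : Finite Unit)
  let cc : ∀ i, VV i → VV i → ℕ := fun i => match i with
    | none => c
    | some _ => fun _ _ => 0
  have h1 := h11 K ι VV cc hK (by
    intro i
    cases i with
    | none => exact h
    | some w => exact dm_point hK)
  let F : (Σ i, VV i) → W := fun x => match x with
    | ⟨none, v⟩ => f v
    | ⟨some w, _⟩ => w.1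
  have hF : Function.Bijective F := by
    constructor
    · rintro ⟨i, v⟩ ⟨j, w⟩ hvw
      cases i with
      | none =>
        cases j with
        | none =>
          have : v = w := hf hvw
          subst this
          rfl
        | some w' =>
          exfalso
          exact w'.2 ⟨v, hvw⟩
      | some v' =>
        cases j with
        | none =>
          exfalso
          exact v'.2 ⟨w, hvw.symm⟩
        | some w' =>
          have : v' = w' := Subtype.ext hvw
          subst this
          rfl
    · intro w
      by_cases hw : w ∈ Set.range f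
      · obtain ⟨v, rfl⟩ := hw
        exact ⟨⟨none, v⟩, rfl⟩
      · exact ⟨⟨some ⟨w, hw⟩, ()⟩, rfl⟩
  refine dm_equiv (sigC cc) c' (Equiv.ofBijective F hF) ?_ h1
  rintro ⟨i, v⟩ ⟨j, w⟩
  show c' (F ⟨i, v⟩) (F ⟨j, w⟩) = _
  cases i with
  | none =>
    cases j with
    | none =>
      show c' (f v) (f w) = _
      rw [hc]
      unfold sigC
      rw [dif_pos rfl]
    | some w' =>
      show c' (f v) w'.1 = _
      rw [h0' _ w'.2]
      unfold sigC
      rw [dif_neg (by simp)]
  | some v' =>
    show c' v'.1 _ = _
    rw [h0 _ v'.2]
    unfold sigC
    by_cases hj : (some v' : ι) = j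
    · subst hj
      rw [dif_pos rfl]
    · rw [dif_neg hj]

end QR22
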