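import Pool.Agent.Helper98.QR.StmtsE
import Pool.Agent.Helper22.QR.T06

/-!
# Row E10, part 2: the glued map
-/

namespace QR22

open QR QRT Equiv Equiv.Perm

section basic

variable {D : Type} (m : RMap D)

theorem tail_face (d : D) : m.tail (m.face d) = m.tail (m.opp d) := by
  apply Quotient.sound
  exact (same_apply m.rot (m.opp d)).symm

theorem tail_opp_opp (d : D) : m.tail (m.opp (m.face d)) = m.tail (m.face (m.face d)) :=
  (tail_face m _).symm

variable [Finite D]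

theorem nobridge (o : D) (p : ℕ) (hp : 2 ≤ p) (hout : m.fdeg o = 2 * p) (hs : m.Simple o) (e : D)
    (he : m.face.SameCycle o e) : ¬ m.face.SameCycle o (m.opp e) := by
  intro he'
  have h1 : m.face e = m.opp e := hs _ _ (he.trans (same_apply _ _)) he' (tail_face m e)
  have h2 : m.face (m.opp e) = e := by
    apply hs _ _ (he'.trans (same_apply _ _)) he
    rw [tail_face, m.opp_opp]
  have h3 : (m.face ^ 2) e = e := by
    show m.face (m.face e) = e
    rw [h1, h2]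
  have h4 := cyc_card_le m.face e 2 (by norm_num) h3
  have h5 : Nat.card {d // m.face.SameCycle e d} = m.fdeg o := by
    apply Nat.card_congr
    apply Equiv.subtypeEquivRight
    intro d
    exact ⟨fun h => he.trans h, fun h => he.symm.trans h⟩
  omega

end basic

/-- the output of the filling construction -/
structure Fil {D1 D2 D : Type} (m1 : RMap D1) (m2 : RMap D2) (o1 : D1) (o2 : D2) (m : RMap D)
    (j1 : D1 → D) (j2 : D2 → D) : Prop where
  inj1 : Function.Injective j1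
  opp1 : ∀ d, j1 (m1.opp d) = m.opp (j1 d)
  opp2 : ∀ d, j2 (m2.opp d) = m.opp (j2 d)
  glu : ∀ i : ℤ, j2 ((m2.face ^ (-i)) o2) = j1 (m1.opp ((m1.face ^ i) o1))
  face1 : ∀ d, ¬ m1.face.SameCycle o1 d → m.face (j1 d) = j1 (m1.face d)
  face2 : ∀ d, ¬ m2.face.SameCycle o2 d → m.face (j2 d) = j2 (m2.face d)
  cov : ∀ x, x ∈ Set.range j1 ∨ x ∈ Set.range j2
  inj2 : ∀ d d', ¬ m2.face.SameCycle o2 d → ¬ m2.face.SameCycle o2 d' → j2 d = j2 d' → d = d'
  jj : ∀ d e, ¬ m2.face.SameCycle o2 e → j1 d = j2 e →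
    ∃ i : ℤ, d = (m1.face ^ i) o1 ∧ e = m2.opp ((m2.face ^ (-i)) o2)
  t1 : ∀ d d', m.tail (j1 d) = m.tail (j1 d') ↔ m1.tail d = m1.tail d'
  t2 : ∀ d d', m2.tail d = m2.tail d' → m.tail (j2 d) = m.tail (j2 d')
  t3 : ∀ d d', (∀ i : ℤ, m2.tail d ≠ m2.tail ((m2.face ^ i) o2)) →
    m.tail (j2 d) = m.tail (j2 d') → m2.tail d = m2.tail d'
  t4 : ∀ d d', (∀ i : ℤ, m2.tail d ≠ m2.tail ((m2.face ^ i) o2)) → m.tail (j2 d) ≠ m.tail (j1 d')

section fil

variable {D1 D2 D : Type} {m1 : RMap D1} {m2 : RMap D2} {o1 : D1} {o2 : D2} {m : RMap D}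
  {j1 : D1 → D} {j2 : D2 → D} (F : Fil m1 m2 o1 o2 m j1 j2)

include F

theorem outer_mem (e : D2) (he : m2.face.SameCycle o2 e) : j2 e ∈ Set.range j1 := by
  obtain ⟨i, rfl⟩ := he
  have h := F.glu (-i)
  rw [neg_neg] at h
  exact ⟨_, h.symm⟩

theorem outer_mem' (e : D2) (he : m2.face.SameCycle o2 (m2.opp e)) : j2 e ∈ Set.range j1 := by
  obtain ⟨d, hd⟩ := outer_mem F _ he
  refine ⟨m1.opp d, ?_⟩
  rw [F.opp1, hd, ← F.opp2, m2.opp_opp]

theorem in_not_mem (e : D2) (he : ¬ m2.face.SameCycle o2 e)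
    (he' : ¬ m2.face.SameCycle o2 (m2.opp e)) : j2 e ∉ Set.range j1 := by
  rintro ⟨d, hd⟩
  obtain ⟨i, -, h2⟩ := F.jj d e he hd
  apply he'
  rw [h2, m2.opp_opp]
  exact ⟨-i, rfl⟩

/-- number of darts between two vertices -/
theorem mult_split [Finite D1] [Finite D2] [Finite D] (A B : m.Vert) :
    m.mult A B = Nat.card {d : D1 // m.tail (j1 d) = A ∧ m.tail (j1 (m1.opp d)) = B} +
      Nat.card {e : D2 // (¬ m2.face.SameCycle o2 e ∧ ¬ m2.face.SameCycle o2 (m2.opp e)) ∧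
        m.tail (j2 e) = A ∧ m.tail (j2 (m2.opp e)) = B} := by
  classical
  unfold RMap.mult
  rw [← Nat.card_sum]
  symm
  let f : {d : D1 // m.tail (j1 d) = A ∧ m.tail (j1 (m1.opp d)) = B} ⊕
      {e : D2 // (¬ m2.face.SameCycle o2 e ∧ ¬ m2.face.SameCycle o2 (m2.opp e)) ∧
        m.tail (j2 e) = A ∧ m.tail (j2 (m2.opp e)) = B} →
      {d : D // m.tail d = A ∧ m.tail (m.opp d) = B} := fun z => match z with
    | Sum.inl d => ⟨j1 d.1, d.2.1, by rw [← F.opp1]; exact d.2.2⟩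
    | Sum.inr e => ⟨j2 e.1, e.2.2.1, by rw [← F.opp2]; exact e.2.2.2⟩
  apply Nat.card_eq_of_bijective f
  constructor
  · rintro (⟨d, hd⟩ | ⟨e, he⟩) (⟨d', hd'⟩ | ⟨e', he'⟩) h
    · have h1 : j1 d = j1 d' := congrArg (fun z : {d : D // m.tail d = A ∧ m.tail (m.opp d) = B} =>
        z.1) h
      have := F.inj1 h1
      subst this
      rfl
    · exfalso
      have h1 : j1 d = j2 e' := congrArg (fun z : {d : D // m.tail d = A ∧ m.tail (m.opp d) = B} =>
        z.1) h
      exact in_not_mem F e' he'.1.1 he'.1.2 ⟨d, h1⟩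
    · exfalso
      have h1 : j2 e = j1 d' := congrArg (fun z : {d : D // m.tail d = A ∧ m.tail (m.opp d) = B} =>
        z.1) h
      exact in_not_mem F e he.1.1 he.1.2 ⟨d', h1.symm⟩
    · have h1 : j2 e = j2 e' := congrArg (fun z : {d : D // m.tail d = A ∧ m.tail (m.opp d) = B} =>
        z.1) h
      have := F.inj2 e e' he.1.1 he'.1.1 h1
      subst this
      rfl
  · rintro ⟨z, hz⟩
    by_cases hz1 : z ∈ Set.range j1
    · obtain ⟨d, rfl⟩ := hz1
      exact ⟨Sum.inl ⟨d, hz.1, by rw [F.opp1]; exact hz.2⟩, rfl⟩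
    · rcases F.cov z with h | ⟨e, rfl⟩
      · exact absurd h hz1
      · refine ⟨Sum.inr ⟨e, ⟨fun h => hz1 (outer_mem F e h), fun h => hz1 (outer_mem' F e h)⟩,
          hz.1, by rw [F.opp2]; exact hz.2⟩, rfl⟩

/-- all faces of the glued map have degree four -/
theorem face_four [Finite D1] [Finite D2] [Finite D] (n1 n2 p : ℕ) (hp : 2 ≤ p)
    (q1 : m1.IsQuad o1 n1 p) (s1 : m1.Simple o1) (q2 : m2.IsQuad o2 n2 p) (s2 : m2.Simple o2)
    (z : D) : m.fdeg z = 4 := by
  have b1 := nobridge m1 o1 p hp q1.outer s1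
  have b2 := nobridge m2 o2 p hp q2.outer s2
  have k1 : ∀ d, ¬ m1.face.SameCycle o1 d → m.fdeg (j1 d) = 4 := by
    intro d hd
    have hpow : ∀ n : ℕ, (m.face ^ n) (j1 d) = j1 ((m1.face ^ n) d) := by
      intro n
      induction n with
      | zero => rfl
      | succ n ih =>
        rw [pow_succ', pow_succ', Perm.mul_apply, Perm.mul_apply, ih]
        apply F.face1
        intro h
        exact hd (h.trans (SameCycle.symm (sameCycle_iff_pow.2 ⟨n, rfl⟩)))
    rw [← q1.inner d hd]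
    symm
    let f : {d' // m1.face.SameCycle d d'} → {z // m.face.SameCycle (j1 d) z} := fun d' =>
      ⟨j1 d'.1, by
        obtain ⟨n, hn⟩ := sameCycle_iff_pow.1 d'.2
        exact sameCycle_iff_pow.2 ⟨n, by rw [hpow, hn]⟩⟩
    apply Nat.card_eq_of_bijective f
    constructor
    · intro a b h
      exact Subtype.ext (F.inj1 (congrArg (fun z : {z // m.face.SameCycle (j1 d) z} => z.1) h))
    · rintro ⟨z, hz⟩
      obtain ⟨n, hn⟩ := sameCycle_iff_pow.1 hz
      refine ⟨⟨(m1.face ^ n) d, sameCycle_iff_pow.2 ⟨n, rfl⟩⟩, ?_⟩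
      apply Subtype.ext
      show j1 _ = z
      rw [← hn, hpow]
  have k2 : ∀ d, ¬ m2.face.SameCycle o2 d → m.fdeg (j2 d) = 4 := by
    intro d hd
    have hno : ∀ d', m2.face.SameCycle d d' → ¬ m2.face.SameCycle o2 d' :=
      fun d' h h' => hd (h'.trans h.symm)
    have hpow : ∀ n : ℕ, (m.face ^ n) (j2 d) = j2 ((m2.face ^ n) d) := by
      intro n
      induction n with
      | zero => rfl
      | succ n ih =>
        rw [pow_succ', pow_succ', Perm.mul_apply, Perm.mul_apply, ih]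
        apply F.face2
        exact hno _ (sameCycle_iff_pow.2 ⟨n, rfl⟩)
    rw [← q2.inner d hd]
    symm
    let f : {d' // m2.face.SameCycle d d'} → {z // m.face.SameCycle (j2 d) z} := fun d' =>
      ⟨j2 d'.1, by
        obtain ⟨n, hn⟩ := sameCycle_iff_pow.1 d'.2
        exact sameCycle_iff_pow.2 ⟨n, by rw [hpow, hn]⟩⟩
    apply Nat.card_eq_of_bijective f
    constructor
    · intro a b h
      exact Subtype.ext (F.inj2 _ _ (hno _ a.2) (hno _ b.2)
        (congrArg (fun z : {z // m.face.SameCycle (j2 d) z} => z.1) h))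
    · rintro ⟨z, hz⟩
      obtain ⟨n, hn⟩ := sameCycle_iff_pow.1 hz
      refine ⟨⟨(m2.face ^ n) d, sameCycle_iff_pow.2 ⟨n, rfl⟩⟩, ?_⟩
      apply Subtype.ext
      show j2 _ = z
      rw [← hn, hpow]
  rcases F.cov z with ⟨d, rfl⟩ | ⟨e, rfl⟩
  · by_cases hd : m1.face.SameCycle o1 d
    · obtain ⟨i, rfl⟩ := hd
      have h1 := F.glu i
      have h2 : j1 ((m1.face ^ i) o1) = j2 (m2.opp ((m2.face ^ (-i)) o2)) := by
        rw [F.opp2, h1, F.opp1]
        exact (m.opp_opp _).symm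
      rw [h2]
      exact k2 _ (b2 _ ⟨-i, rfl⟩)
    · exact k1 d hd
  · by_cases he : m2.face.SameCycle o2 e
    · obtain ⟨i, rfl⟩ := he
      have h1 := F.glu (-i)
      rw [neg_neg] at h1
      rw [h1]
      exact k1 _ (b1 _ ⟨-i, rfl⟩)
    · exact k2 e he

end fil

end QR22
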