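import Pool.Agent.Helper22.QR.Dm1
import Pool.Agent.Helper22.QR.Dm2

/-!
# Row E10: disc model of the glueing of two quadrangulations
-/

namespace QR22

open QR QRT Equiv Equiv.Perm

section fil

variable {D1 D2 D : Type} {m1 : RMap D1} {m2 : RMap D2} {o1 : D1} {o2 : D2} {m : RMap D}
  {j1 : D1 → D} {j2 : D2 → D} (F : Fil m1 m2 o1 o2 m j1 j2)

/-- the vertices of the first map -/
def i1 (F : Fil m1 m2 o1 o2 m j1 j2) : m1.Vert → m.Vert :=
  Quotient.lift (s := SameCycle.setoid m1.rot) (fun d => m.tail (j1 d))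
    (fun d d' h => (F.t1 d d').2 (Quotient.sound (s := SameCycle.setoid m1.rot) h))

/-- the vertices of the second map -/
def i2 (F : Fil m1 m2 o1 o2 m j1 j2) : m2.Vert → m.Vert :=
  Quotient.lift (s := SameCycle.setoid m2.rot) (fun d => m.tail (j2 d))
    (fun d d' h => F.t2 d d' (Quotient.sound (s := SameCycle.setoid m2.rot) h))

theorem exists_dart {E : Type} (n : RMap E) (v : n.Vert) : ∃ d, n.tail d = v :=
  Quotient.exists_rep (s := SameCycle.setoid n.rot) v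

theorem face_zpow {E : Type} (n : RMap E) (i : ℤ) (o : E) :
    n.face ((n.face ^ i) o) = (n.face ^ (i + 1)) o := by
  rw [add_comm, zpow_add, zpow_one]
  rfl

theorem i_bd (i : ℤ) : i2 F ((m2.bg o2).b (1 - i)) = i1 F ((m1.bg o1).b i) := by
  show m.tail (j2 ((m2.face ^ (1 - i)) o2)) = m.tail (j1 ((m1.face ^ i) o1))
  have h := F.glu (i - 1)
  have e1 : -(i - 1) = 1 - i := by ring
  rw [e1] at h
  rw [h]
  apply (F.t1 _ _).2
  rw [← tail_face, face_zpow]
  have e2 : i - 1 + 1 = i := by ring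
  rw [e2]

theorem i1_inj : Function.Injective (i1 F) := by
  intro u v h
  obtain ⟨d, rfl⟩ := exists_dart m1 u
  obtain ⟨d', rfl⟩ := exists_dart m1 v
  exact (F.t1 d d').1 h

theorem i2_nb (w w' : m2.Vert) (hw : w ∉ Set.range (m2.bg o2).b) (h : i2 F w = i2 F w') :
    w = w' := by
  obtain ⟨d, rfl⟩ := exists_dart m2 w
  obtain ⟨d', rfl⟩ := exists_dart m2 w'
  exact F.t3 d d' (fun i hi => hw ⟨i, hi.symm⟩) h

theorem i12_nb (u : m1.Vert) (w : m2.Vert) (hw : w ∉ Set.range (m2.bg o2).b) :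
    i2 F w ≠ i1 F u := by
  obtain ⟨d, rfl⟩ := exists_dart m2 w
  obtain ⟨d', rfl⟩ := exists_dart m1 u
  exact F.t4 d d' (fun i hi => hw ⟨i, hi.symm⟩)

theorem i12 (u : m1.Vert) (w : m2.Vert) (h : i2 F w = i1 F u) :
    ∃ i : ℤ, u = (m1.bg o1).b i ∧ w = (m2.bg o2).b (1 - i) := by
  by_cases hw : w ∈ Set.range (m2.bg o2).b
  · obtain ⟨k, rfl⟩ := hw
    refine ⟨1 - k, ?_, ?_⟩
    · have h1 := i_bd F (1 - k)
      have e1 : 1 - (1 - k) = k := by ring
      rw [e1, h] at h1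
      exact i1_inj F h1
    · congr 1
      ring
  · exact absurd h (i12_nb F u w hw)

theorem i2_inj (hR : RegP (m1.bg o1) (m2.bg o2)) : Function.Injective (i2 F) := by
  intro w w' h
  by_cases hw : w ∈ Set.range (m2.bg o2).b
  · by_cases hw' : w' ∈ Set.range (m2.bg o2).b
    · obtain ⟨k, rfl⟩ := hw
      obtain ⟨l, rfl⟩ := hw'
      have h1 := i_bd F (1 - k)
      have h2 := i_bd F (1 - l)
      have e1 : 1 - (1 - k) = k := by ring
      have e2 : 1 - (1 - l) = l := by ring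
      rw [e1] at h1
      rw [e2] at h2
      rw [h1, h2] at h
      have h3 := (hR.glue _ _).1 (i1_inj F h)
      rw [e1, e2] at h3
      exact h3
    · exact (i2_nb F w' w hw' h.symm).symm
  · exact i2_nb F w w' hw h

theorem i_surj (v : m.Vert) : (∃ u, i1 F u = v) ∨
    ∃ w, w ∉ Set.range (m2.bg o2).b ∧ i2 F w = v := by
  obtain ⟨z, rfl⟩ := exists_dart m v
  rcases F.cov z with ⟨d, rfl⟩ | ⟨e, rfl⟩
  · exact Or.inl ⟨m1.tail d, rfl⟩
  · by_cases hw : m2.tail e ∈ Set.range (m2.bg o2).b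
    · left
      obtain ⟨k, hk⟩ := hw
      refine ⟨(m1.bg o1).b (1 - k), ?_⟩
      rw [← i_bd]
      have e1 : 1 - (1 - k) = k := by ring
      rw [e1, hk]
      rfl
    · exact Or.inr ⟨m2.tail e, hw, rfl⟩

/-! ## Counting -/

/-- darts of the second map which are not near the boundary -/
def In2 (m2 : RMap D2) (o2 : D2) (e : D2) : Prop :=
  ¬ m2.face.SameCycle o2 e ∧ ¬ m2.face.SameCycle o2 (m2.opp e)

variable [Finite D1] [Finite D2] [Finite D]

theorem n1_eq (u v : m1.Vert) :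
    Nat.card {d : D1 // m.tail (j1 d) = i1 F u ∧ m.tail (j1 (m1.opp d)) = i1 F v} =
      m1.mult u v := by
  apply Nat.card_congr
  apply Equiv.subtypeEquivRight
  intro d
  constructor
  · rintro ⟨h1, h2⟩
    exact ⟨i1_inj F h1, i1_inj F h2⟩
  · rintro ⟨h1, h2⟩
    rw [← h1, ← h2]
    exact ⟨rfl, rfl⟩

theorem n1_zero (w : m2.Vert) (hw : w ∉ Set.range (m2.bg o2).b) (B : m.Vert) :
    Nat.card {d : D1 // m.tail (j1 d) = i2 F w ∧ m.tail (j1 (m1.opp d)) = B} = 0 := by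
  haveI : IsEmpty {d : D1 // m.tail (j1 d) = i2 F w ∧ m.tail (j1 (m1.opp d)) = B} := by
    constructor
    rintro ⟨d, h1, -⟩
    exact i12_nb F (m1.tail d) w hw h1.symm
  exact Nat.card_of_isEmpty

theorem n1_zero' (w : m2.Vert) (hw : w ∉ Set.range (m2.bg o2).b) (A : m.Vert) :
    Nat.card {d : D1 // m.tail (j1 d) = A ∧ m.tail (j1 (m1.opp d)) = i2 F w} = 0 := by
  haveI : IsEmpty {d : D1 // m.tail (j1 d) = A ∧ m.tail (j1 (m1.opp d)) = i2 F w} := by
    constructor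
    rintro ⟨d, -, h1⟩
    exact i12_nb F (m1.tail (m1.opp d)) w hw h1.symm
  exact Nat.card_of_isEmpty

theorem n2_zero (u : m1.Vert) (hu : u ∉ Set.range (m1.bg o1).b) (B : m.Vert) :
    Nat.card {e : D2 // (¬ m2.face.SameCycle o2 e ∧ ¬ m2.face.SameCycle o2 (m2.opp e)) ∧
        m.tail (j2 e) = i1 F u ∧ m.tail (j2 (m2.opp e)) = B} = 0 := by
  haveI : IsEmpty {e : D2 // (¬ m2.face.SameCycle o2 e ∧ ¬ m2.face.SameCycle o2 (m2.opp e)) ∧
        m.tail (j2 e) = i1 F u ∧ m.tail (j2 (m2.opp e)) = B} := by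
    constructor
    rintro ⟨e, -, h1, -⟩
    obtain ⟨i, hi, -⟩ := i12 F u (m2.tail e) h1
    exact hu ⟨i, hi.symm⟩
  exact Nat.card_of_isEmpty

theorem n2_zero' (u : m1.Vert) (hu : u ∉ Set.range (m1.bg o1).b) (A : m.Vert) :
    Nat.card {e : D2 // (¬ m2.face.SameCycle o2 e ∧ ¬ m2.face.SameCycle o2 (m2.opp e)) ∧
        m.tail (j2 e) = A ∧ m.tail (j2 (m2.opp e)) = i1 F u} = 0 := by
  haveI : IsEmpty {e : D2 // (¬ m2.face.SameCycle o2 e ∧ ¬ m2.face.SameCycle o2 (m2.opp e)) ∧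
        m.tail (j2 e) = A ∧ m.tail (j2 (m2.opp e)) = i1 F u} := by
    constructor
    rintro ⟨e, -, -, h1⟩
    obtain ⟨i, hi, -⟩ := i12 F u (m2.tail (m2.opp e)) h1
    exact hu ⟨i, hi.symm⟩
  exact Nat.card_of_isEmpty

theorem n2_eq (hR : RegP (m1.bg o1) (m2.bg o2)) (w w' : m2.Vert) :
    Nat.card {e : D2 // (¬ m2.face.SameCycle o2 e ∧ ¬ m2.face.SameCycle o2 (m2.opp e)) ∧
        m.tail (j2 e) = i2 F w ∧ m.tail (j2 (m2.opp e)) = i2 F w'} =
    Nat.card {e : D2 // In2 m2 o2 e ∧ m2.tail e = w ∧ m2.tail (m2.opp e) = w'} := by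
  apply Nat.card_congr
  apply Equiv.subtypeEquivRight
  intro e
  constructor
  · rintro ⟨h0, h1, h2⟩
    exact ⟨h0, i2_inj F hR h1, i2_inj F hR h2⟩
  · rintro ⟨h0, h1, h2⟩
    rw [← h1, ← h2]
    exact ⟨h0, rfl, rfl⟩

end fil

section two

variable {D2 : Type} [Finite D2] (m2 : RMap D2) (o2 : D2)

omit [Finite D2] in
theorem in2_auto (w w' : m2.Vert)
    (h : w ∉ Set.range (m2.bg o2).b ∨ w' ∉ Set.range (m2.bg o2).b) :
    Nat.card {e : D2 // In2 m2 o2 e ∧ m2.tail e = w ∧ m2.tail (m2.opp e) = w'} =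
      m2.mult w w' := by
  apply Nat.card_congr
  apply Equiv.subtypeEquivRight
  intro e
  constructor
  · rintro ⟨-, h1⟩
    exact h1
  · rintro ⟨rfl, rfl⟩
    refine ⟨⟨?_, ?_⟩, rfl, rfl⟩
    · rintro ⟨i, hi⟩
      rcases h with h | h
      · exact h ⟨i, congrArg m2.tail hi⟩
      · apply h
        refine ⟨i + 1, ?_⟩
        show m2.tail ((m2.face ^ (i + 1)) o2) = _
        rw [← face_zpow, hi, tail_face]
    · rintro ⟨i, hi⟩
      rcases h with h | h
      · apply h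
        refine ⟨i + 1, ?_⟩
        show m2.tail ((m2.face ^ (i + 1)) o2) = _
        rw [← face_zpow, hi, tail_face, m2.opp_opp]
      · exact h ⟨i, congrArg m2.tail hi⟩

open Classical in
theorem in2_bd {V : Type} (G : BGraph V) (hR : RegP G (m2.bg o2)) (n p : ℕ) (hp : 2 ≤ p)
    (q2 : m2.IsQuad o2 n p) (s2 : m2.Simple o2) (i j : ℤ) :
    Nat.card {e : D2 // In2 m2 o2 e ∧ m2.tail e = (m2.bg o2).b (1 - i) ∧
      m2.tail (m2.opp e) = (m2.bg o2).b (1 - j)} =
      m2.mult ((m2.bg o2).b (1 - i)) ((m2.bg o2).b (1 - j)) -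
        (if G.b (i + 1) = G.b j ∨ G.b (j + 1) = G.b i then 1 else 0) := by
  have bt : ∀ k : ℤ, (m2.bg o2).b k = m2.tail ((m2.face ^ k) o2) := fun k => rfl
  have bt1 : ∀ k : ℤ, (m2.bg o2).b (k + 1) = m2.tail (m2.opp ((m2.face ^ k) o2)) := by
    intro k
    rw [bt, ← face_zpow, tail_face]
  set w := (m2.bg o2).b (1 - i) with hw
  set w' := (m2.bg o2).b (1 - j) with hw'
  let X : Set D2 := {e | m2.tail e = w ∧ m2.tail (m2.opp e) = w'}
  let T : Set D2 := {e | e ∈ X ∧ (m2.face.SameCycle o2 e ∨ m2.face.SameCycle o2 (m2.opp e))}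
  have hTX : T ⊆ X := fun e he => he.1
  have e1 : Nat.card {e : D2 // In2 m2 o2 e ∧ m2.tail e = w ∧ m2.tail (m2.opp e) = w'} =
      (X \ T).ncard := by
    apply Nat.card_congr
    apply Equiv.subtypeEquivRight
    intro e
    constructor
    · rintro ⟨⟨h1, h2⟩, h3⟩
      refine ⟨h3, ?_⟩
      rintro ⟨-, h4 | h4⟩
      · exact h1 h4
      · exact h2 h4
    · rintro ⟨h3, h4⟩
      exact ⟨⟨fun h => h4 ⟨h3, Or.inl h⟩, fun h => h4 ⟨h3, Or.inr h⟩⟩, h3⟩
  have e2 : m2.mult w w' = X.ncard := rfl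
  have e3 := Set.ncard_diff hTX (Set.toFinite T)
  have hne : T.Nonempty ↔ (G.b (i + 1) = G.b j ∨ G.b (j + 1) = G.b i) := by
    rw [hR.glue, hR.glue]
    have a1 : 1 - (i + 1) = -i := by ring
    have a2 : 1 - (j + 1) = -j := by ring
    rw [a1, a2]
    constructor
    · rintro ⟨e, ⟨h1, h2⟩, ⟨k, hk⟩ | ⟨k, hk⟩⟩
      · right
        subst hk
        have h3 : (m2.bg o2).b (k + 1) = (m2.bg o2).b (1 - j) := by rw [bt1, h2]
        have h4 := hR.per2 _ _ (-1) h3
        have a3 : k + 1 + -1 = k := by ring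
        have a4 : 1 - j + -1 = -j := by ring
        rw [a3, a4] at h4
        rw [← h4]
        exact h1
      · left
        have h0 : m2.tail (m2.opp e) = (m2.bg o2).b k := by rw [← hk]; rfl
        have h3 : (m2.bg o2).b (k + 1) = (m2.bg o2).b (1 - i) := by
          rw [bt1, hk, m2.opp_opp]
          exact h1
        have h4 := hR.per2 _ _ (-1) h3
        have a3 : k + 1 + -1 = k := by ring
        have a4 : 1 - i + -1 = -i := by ring
        rw [a3, a4] at h4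
        rw [← h4, ← h0]
        exact h2
    · rintro (h | h)
      · refine ⟨m2.opp ((m2.face ^ (-i)) o2), ⟨?_, ?_⟩, Or.inr ?_⟩
        · rw [← bt1]
          have a3 : -i + 1 = 1 - i := by ring
          rw [a3]
        · rw [m2.opp_opp]
          exact h
        · rw [m2.opp_opp]
          exact ⟨-i, rfl⟩
      · refine ⟨(m2.face ^ (-j)) o2, ⟨h, ?_⟩, Or.inl ⟨-j, rfl⟩⟩
        rw [← bt1]
        have a3 : -j + 1 = 1 - j := by ring
        rw [a3]
  have key : ∀ e e' : D2, e ∈ X → e' ∈ X → m2.face.SameCycle o2 e →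
      m2.face.SameCycle o2 (m2.opp e') → False := by
    intro e e' he he' h h'
    have h1 : m2.face e = m2.opp e' := by
      apply s2 _ _ (h.trans (same_apply _ _)) h'
      rw [tail_face, he.2, he'.2]
    have h2 : m2.face (m2.opp e') = e := by
      apply s2 _ _ (h'.trans (same_apply _ _)) h
      rw [tail_face, m2.opp_opp, he'.1, he.1]
    have h3 : (m2.face ^ 2) e = e := by
      show m2.face (m2.face e) = e
      rw [h1, h2]
    have h4 := cyc_card_le m2.face e 2 (by norm_num) h3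
    have h5 : Nat.card {d // m2.face.SameCycle e d} = m2.fdeg o2 := by
      apply Nat.card_congr
      apply Equiv.subtypeEquivRight
      intro d
      exact ⟨fun h' => h.trans h', fun h' => h.symm.trans h'⟩
    rw [h5, q2.outer] at h4
    omega
  have hsub : T.Subsingleton := by
    rintro e ⟨he, h⟩ e' ⟨he', h'⟩
    rcases h with h | h
    · rcases h' with h' | h'
      · exact s2 _ _ h h' (by rw [he.1, he'.1])
      · exact (key e e' he he' h h').elim
    · rcases h' with h' | h'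
      · exact (key e' e he' he h' h).elim
      · have h1 := s2 _ _ h h' (by rw [he.2, he'.2])
        exact m2.opp.injective h1
  have hT : T.ncard = if G.b (i + 1) = G.b j ∨ G.b (j + 1) = G.b i then 1 else 0 := by
    split_ifs with hc
    · obtain ⟨e, he⟩ := hne.2 hc
      have : T = {e} := hsub.eq_singleton_of_mem he
      rw [this, Set.ncard_singleton]
    · have : T = ∅ := by
        rw [← Set.not_nonempty_iff_eq_empty, hne]
        exact hc
      rw [this, Set.ncard_empty]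
  rw [e1, e2, e3, hT]

end two

/-- the glued map -/
theorem glue_map (hF : ST_FILL) (h7 : ST_E07) {D1 D2 : Type} [Finite D1] [Finite D2]
    (m1 : RMap D1) (m2 : RMap D2) (o1 : D1) (o2 : D2) (n1 n2 p : ℕ) (hp : 2 ≤ p)
    (q1 : m1.IsQuad o1 n1 p) (s1 : m1.Simple o1) (q2 : m2.IsQuad o2 n2 p) (s2 : m2.Simple o2)
    (hR : RegP (m1.bg o1) (m2.bg o2)) :
    ∃ (D : Type) (_ : Fintype D) (m : RMap D) (f : m.Vert → m1.Vert ⊕ m2.Vert), m.Planar ∧
      (∀ d, m.fdeg d = 4) ∧ Function.Injective f ∧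
      (∀ u v, gl m1 o1 m2 o2 (f u) (f v) = m.mult u v) ∧
      (∀ w, w ∉ Set.range f → ∀ w', gl m1 o1 m2 o2 w w' = 0) := by
  classical
  letI := Fintype.ofFinite D1
  letI := Fintype.ofFinite D2
  obtain ⟨D, iD, m, j1, j2, hpl, c1, c2, c3, c4, c5, c6, c7, c8, c9, c10, c11, c12, c13⟩ :=
    hF D1 D2 m1 m2 o1 o2 q1.planar q2.planar (q1.outer.trans q2.outer.symm) s2
      (nobridge m2 o2 p hp q2.outer s2)
  have F : Fil m1 m2 o1 o2 m j1 j2 := ⟨c1, c2, c3, c4, c5, c6, c7, c8, c9, c10, c11, c12, c13⟩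
  obtain ⟨g1, g2, g3, g4, g5, g6, g7, g8, g9, g10, g11⟩ := h7 _ _ _ _ hR
  have hex : ∀ v : m.Vert, ∃ a : m1.Vert ⊕ m2.Vert, (∃ u, a = Sum.inl u ∧ i1 F u = v) ∨
      (∃ w, a = Sum.inr w ∧ w ∉ Set.range (m2.bg o2).b ∧ i2 F w = v) := by
    intro v
    rcases i_surj F v with ⟨u, hu⟩ | ⟨w, hw, hw'⟩
    · exact ⟨Sum.inl u, Or.inl ⟨u, rfl, hu⟩⟩
    · exact ⟨Sum.inr w, Or.inr ⟨w, rfl, hw, hw'⟩⟩
  choose f hf using hex
  refine ⟨D, iD, m, f, hpl, face_four F n1 n2 p hp q1 s1 q2 s2, ?_, ?_, ?_⟩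
  · intro v v' h
    rcases hf v with ⟨u, h1, h2⟩ | ⟨w, h1, h2, h3⟩
    · rcases hf v' with ⟨u', h1', h2'⟩ | ⟨w', h1', h2', h3'⟩
      · rw [h1, h1'] at h
        rw [← h2, ← h2', Sum.inl_injective h]
      · rw [h1, h1'] at h
        exact absurd h Sum.inl_ne_inr
    · rcases hf v' with ⟨u', h1', h2'⟩ | ⟨w', h1', h2', h3'⟩
      · rw [h1, h1'] at h
        exact absurd h Sum.inr_ne_inl
      · rw [h1, h1'] at h
        rw [← h3, ← h3', Sum.inr_injective h]
  · intro u v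
    rw [mult_split F u v]
    rcases hf u with ⟨a, h1, rfl⟩ | ⟨w, h1, hw, rfl⟩
    · rcases hf v with ⟨b, h2, rfl⟩ | ⟨w', h2, hw', rfl⟩
      · rw [h1, h2, n1_eq F]
        by_cases ha : a ∈ Set.range (m1.bg o1).b
        · by_cases hb : b ∈ Set.range (m1.bg o1).b
          · obtain ⟨i, rfl⟩ := ha
            obtain ⟨j, rfl⟩ := hb
            rw [← i_bd F i, ← i_bd F j, n2_eq F hR, in2_bd m2 o2 (m1.bg o1) hR n2 p hp q2 s2]
            exact g11 i j
          · rw [n2_zero' F b hb, add_zero]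
            show glueC _ _ _ _ = _
            rw [g3, g10 b a hb]
            exact hR.symm1 b a
        · rw [n2_zero F a ha, add_zero]
          exact g10 a b ha
      · rw [h1, h2, n1_zero' F w' hw', zero_add]
        by_cases ha : a ∈ Set.range (m1.bg o1).b
        · obtain ⟨i, rfl⟩ := ha
          rw [← i_bd F i, n2_eq F hR, in2_auto m2 o2 _ _ (Or.inr hw')]
          exact g8 i w' hw'
        · rw [n2_zero F a ha]
          exact g9 a w' ha
    · rcases hf v with ⟨b, h2, rfl⟩ | ⟨w', h2, hw', rfl⟩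
      · rw [h1, h2, n1_zero F w hw, zero_add]
        show glueC _ _ _ _ = _
        rw [g3]
        by_cases hb : b ∈ Set.range (m1.bg o1).b
        · obtain ⟨j, rfl⟩ := hb
          rw [← i_bd F j, n2_eq F hR, in2_auto m2 o2 _ _ (Or.inl hw), g8 j w hw]
          exact hR.symm2 _ _
        · rw [n2_zero' F b hb]
          exact g9 b w hb
      · rw [h1, h2, n1_zero F w hw, zero_add, n2_eq F hR, in2_auto m2 o2 _ _ (Or.inl hw)]
        exact g7 w w' hw hw'
  · rintro (u | w) hw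
    · exfalso
      apply hw
      refine ⟨i1 F u, ?_⟩
      rcases hf (i1 F u) with ⟨u', h1, h2⟩ | ⟨w', h1, h2, h3⟩
      · rw [h1, i1_inj F h2]
      · exact absurd h3 (i12_nb F u w' h2)
    · apply g6
      by_contra hb
      apply hw
      refine ⟨i2 F w, ?_⟩
      rcases hf (i2 F w) with ⟨u', h1, h2⟩ | ⟨w', h1, h2, h3⟩
      · exact absurd h2.symm (i12_nb F u' w hb)
      · rw [h1, i2_inj F hR h3]

theorem st_E10 (hF : ST_FILL) (hD : ST_DM) (h5 : ST_E05) (h7 : ST_E07) (h11 : ST_E11) :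
    ST_E10 := by
  obtain ⟨K, hK, hM⟩ := hD
  refine ⟨K, hK, ?_⟩
  intro n p _ hp x hx y hy
  have hR := (h5 n p hp x hx).2.2 y hy
  obtain ⟨D, iD, m, f, hpl, h4, hinj, hmul, hzero⟩ := glue_map hF h7 x.1 y.1 x.2 y.2 n n p hp
    hx.1 hx.2 hy.1 hy.2 hR
  have hsym := (h7 _ _ _ _ hR).2.2.1
  exact dm_isolated h11 hK m.mult (gl x.1 x.2 y.1 y.2) f hinj hmul hzero
    (fun w hw w' => (hsym w' w).trans (hzero w hw w')) (hM D m hpl h4)

end QR22
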