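import Pool.Agent.Helper22.QR.BD3

/-!
# Row P0V: vertex form of the basic inequality
-/

namespace QR22

noncomputable section

open Finset Classical CP

variable {D V F : Type} [Fintype D] [Fintype V] [Fintype F]

theorem vt_face (m : LM D V F) (d : D) : m.vt (m.face d) = m.vt (m.opp d) := by
  rw [face_apply, m.vt_rot]

theorem fc_face' (m : LM D V F) (d : D) : m.fc (m.face d) = m.fc d := m.fc_face d

theorem face_ne (m : LM D V F) (hT : m.Tri) (d : D) : m.face d ≠ d := by
  intro h
  apply hT.noloop d
  rw [← vt_face, h]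

theorem face2_ne (m : LM D V F) (hT : m.Tri) (d : D) : m.face (m.face d) ≠ d := by
  intro h
  have h1 := hT.f3 d
  rw [h] at h1
  exact face_ne m hT d h1

/-- the darts of a face -/
theorem fc_fiber (m : LM D V F) (hT : m.Tri) (d : D) :
    Finset.univ.filter (fun e => m.fc e = m.fc d) = {d, m.face d, m.face (m.face d)} := by
  ext e
  simp only [Finset.mem_filter, Finset.mem_univ, true_and, Finset.mem_insert, Finset.mem_singleton]
  constructor
  · intro h
    exact hT.fib d e h
  · rintro (rfl | rfl | rfl)
    · rfl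
    · exact fc_face' m _
    · rw [fc_face', fc_face']

theorem fc_fiber_card (m : LM D V F) (hT : m.Tri) (φ : F) :
    (Finset.univ.filter (fun e => m.fc e = φ)).card = 3 := by
  obtain ⟨d, rfl⟩ := m.fc_surj φ
  rw [fc_fiber m hT d, Finset.card_insert_of_notMem, Finset.card_insert_of_notMem,
    Finset.card_singleton]
  · simp only [Finset.mem_singleton]
    exact fun h => face_ne m hT _ h.symm
  · simp only [Finset.mem_insert, Finset.mem_singleton, not_or]
    exact ⟨fun h => face_ne m hT _ h.symm, fun h => face2_ne m hT _ h.symm⟩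

theorem card_D (m : LM D V F) (hT : m.Tri) : Fintype.card D = 3 * Fintype.card F := by
  have h : (Finset.univ : Finset D).card = ∑ φ : F, (Finset.univ.filter (fun e => m.fc e = φ)).card :=
    Finset.card_eq_sum_card_fiberwise (fun _ _ => Finset.mem_univ _)
  rw [Finset.card_univ] at h
  rw [h, Finset.sum_congr rfl (fun φ _ => fc_fiber_card m hT φ), Finset.sum_const, Finset.card_univ,
    smul_eq_mul, mul_comm]

theorem card_D' (m : LM D V F) (hT : m.Tri) : Fintype.card D + 12 = 6 * Fintype.card V := by
  have h1 := card_D m hT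
  have h2 := m.euler
  omega

theorem mem_meets (m : LM D V F) (hT : m.Tri) (A : Finset V) (d : D) :
    m.fc d ∈ meets m A ↔ m.vt d ∈ A ∨ m.v1 d ∈ A ∨ m.v2 d ∈ A := by
  constructor
  · rintro ⟨e, he, hA⟩
    rcases hT.fib d e he with rfl | rfl | rfl
    · exact Or.inl hA
    · exact Or.inr (Or.inl hA)
    · exact Or.inr (Or.inr hA)
  · rintro (h | h | h)
    · exact ⟨d, rfl, h⟩
    · exact ⟨m.face d, fc_face' m d, h⟩
    · exact ⟨m.face (m.face d), by rw [fc_face', fc_face'], h⟩

theorem st_P0V (h0 : ST_P0) : ST_P0V := by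
  intro D V F _ _ _ m o hT A hA hout
  have e1 : (Finset.univ.filter (fun d => m.fc d ∈ meets m A)) =
      (Finset.univ.filter (fun d => m.vt d ∈ A ∨ m.v1 d ∈ A ∨ m.v2 d ∈ A)) :=
    Finset.filter_congr (fun d _ => mem_meets m hT A d)
  constructor
  · rw [← e1]
    apply h0 D V F m hT A hA
    intro h
    have h1 : m.fc o ∈ meets m A := by
      rw [h]
      exact Set.mem_univ _
    rw [mem_meets m hT] at h1
    rcases h1 with h1 | h1 | h1
    · exact hout _ h1 (Or.inl rfl)
    · exact hout _ h1 (Or.inr (Or.inl rfl))
    · exact hout _ h1 (Or.inr (Or.inr rfl))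
  · have hApos : 0 < A.card := Finset.card_pos.mpr hA
    have hV := card_D' m hT
    have hne : (Aᶜ : Finset V).Nonempty := by
      refine ⟨m.vt o, ?_⟩
      rw [Finset.mem_compl]
      intro h1
      exact hout _ h1 (Or.inl rfl)
    have hsplit : (Finset.univ.filter (fun d => m.vt d ∈ A ∧ m.v1 d ∈ A ∧ m.v2 d ∈ A)).card +
        (Finset.univ.filter (fun d => m.fc d ∈ meets m Aᶜ)).card = Fintype.card D := by
      have h1 := Finset.card_filter_add_card_filter_not (s := (Finset.univ : Finset D))
        (fun d => m.vt d ∈ A ∧ m.v1 d ∈ A ∧ m.v2 d ∈ A)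
      rw [Finset.card_univ] at h1
      rw [← h1]
      congr 2
      apply Finset.filter_congr
      intro d _
      rw [mem_meets m hT]
      simp only [Finset.mem_compl]
      tauto
    have hc : (Aᶜ : Finset V).card = Fintype.card V - A.card := Finset.card_compl A
    have hle : A.card ≤ Fintype.card V := Finset.card_le_univ A
    by_cases hu : meets m Aᶜ = Set.univ
    · have h2 : (Finset.univ.filter (fun d => m.fc d ∈ meets m Aᶜ)) = Finset.univ := by
        rw [Finset.filter_eq_self]
        intro d _
        rw [hu]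
        exact Set.mem_univ _
      rw [h2, Finset.card_univ] at hsplit
      omega
    · have h2 := h0 D V F m hT Aᶜ hne hu
      omega

end

end QR22
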